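import Pool.Agent.Helper78.LD8.Defs
import Pool.Agent.Helper95.KX.SMeas

/-!
# Project LD8, block NRL: nonresonance from the sparse measure
-/

set_option autoImplicit false

namespace Pool.Agent.Helper23.LD8

open Filter Topology Finset
open Pool.Agent.Helper95.KX (SMeas)
open Pool.Agent.Helper78.LD8 (Pm)

/-- lower bound for the short sums with at most `n` terms and the coefficients `≤ 2 ^ (B K)` -/
def LB (θ : ℝ) (B n a K : ℕ) : Prop :=
  ∀ (I : Finset ℕ) (M : ℕ), M ∈ I → (∀ τ ∈ I, τ ≤ M) → I.card ≤ n → ∀ m : ℕ → ℤ, (∀ τ ∈ I, m τ ≠ 0 ∧ |m τ| ≤ 2 ^ (B * K)) →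
    (1 / 2 : ℝ) ^ (K ^ a) * θ ^ M ≤ |∑ τ ∈ I, (m τ : ℝ) * θ ^ τ|

/-- short sums with near exponents -/
theorem near {θ : ℝ} {k A : ℕ} {C : ℝ} (hm : ∀ (d H : ℕ) (P : Polynomial ℤ), P ≠ 0 → P.natDegree ≤ d → P.support.card ≤ k + 1 →
      (∀ i, |P.coeff i| ≤ H) → Real.exp (-(C * ((d : ℝ) + Real.log (1 + H)) ^ A)) ≤ |Polynomial.aeval θ P|) (hθ : 0 < θ)
    {G H : ℕ} {I : Finset ℕ} {M μ : ℕ} (hM : M ∈ I) (hμ : ∀ τ ∈ I, μ ≤ τ) (hMm : ∀ τ ∈ I, τ ≤ M) (hG : M ≤ μ + G) (hI : I.card ≤ k + 1)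
    {m : ℕ → ℤ} (hm0 : ∀ τ ∈ I, m τ ≠ 0 ∧ |m τ| ≤ H) :
    Real.exp (-(C * ((G : ℝ) + Real.log (1 + H)) ^ A)) * θ ^ μ ≤ |∑ τ ∈ I, (m τ : ℝ) * θ ^ τ| := by
  classical
  set P : Polynomial ℤ := ∑ τ ∈ I, Polynomial.monomial (τ - μ) (m τ) with hP
  have hc : ∀ i, P.coeff i = if μ + i ∈ I then m (μ + i) else 0 := by
    intro i
    rw [hP, Polynomial.finsetSum_coeff]
    simp only [Polynomial.coeff_monomial]
    have h1 : ∀ τ ∈ I, (if τ - μ = i then m τ else 0) = if τ = μ + i then m τ else 0 := by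
      intro τ hτ
      have h2 := hμ τ hτ
      have h3 : τ - μ = i ↔ τ = μ + i := by omega
      simp only [h3]
    rw [Finset.sum_congr rfl h1, Finset.sum_ite_eq' I (μ + i) m]
  have h0 : P ≠ 0 := by
    intro h
    have h1 := hc (M - μ)
    have h2 : μ + (M - μ) = M := by have := hμ M hM; omega
    rw [h, Polynomial.coeff_zero, h2, if_pos hM] at h1
    exact (hm0 M hM).1 h1.symm
  have hdeg : P.natDegree ≤ G := by
    rw [Polynomial.natDegree_le_iff_coeff_eq_zero]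
    intro i hi
    rw [hc, if_neg]
    intro h
    have := hMm _ h
    omega
  have hcard : P.support.card ≤ k + 1 := by
    refine (Finset.card_le_card (t := I.image fun τ => τ - μ) ?_).trans (Finset.card_image_le.trans hI)
    intro i hi
    rw [Polynomial.mem_support_iff, hc] at hi
    rw [Finset.mem_image]
    by_cases h : μ + i ∈ I
    · exact ⟨μ + i, h, by omega⟩
    · rw [if_neg h] at hi
      exact absurd rfl hi
  have hcoef : ∀ i, |P.coeff i| ≤ H := by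
    intro i
    rw [hc]
    split_ifs with h
    · exact (hm0 _ h).2
    · simp
  have h := hm G H P h0 hdeg hcard hcoef
  have hev : θ ^ μ * Polynomial.aeval θ P = ∑ τ ∈ I, (m τ : ℝ) * θ ^ τ := by
    rw [hP, map_sum, Finset.mul_sum]
    refine Finset.sum_congr rfl fun τ hτ => ?_
    rw [Polynomial.aeval_monomial]
    have h2 : θ ^ τ = θ ^ μ * θ ^ (τ - μ) := by rw [← pow_add]; congr 1; have := hμ τ hτ; omega
    rw [h2]
    simp only [eq_intCast]
    ring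
  rw [← hev, abs_mul, abs_of_pos (pow_pos hθ μ), mul_comm]
  exact mul_le_mul_of_nonneg_left h (by positivity)

/-- one more term -/
theorem step {θ : ℝ} (hθ : 1 < θ) (hm : SMeas θ) (B : ℕ) {n a : ℕ} (hn : 1 ≤ n) (h : ∀ᶠ K : ℕ in atTop, LB θ B n a K) :
    ∃ a' : ℕ, ∀ᶠ K : ℕ in atTop, LB θ B (n + 1) a' K := by
  classical
  obtain ⟨A, C, hC, hm⟩ := hm n
  obtain ⟨L, hL⟩ : ∃ L : ℕ, (2 : ℝ) ≤ θ ^ L := by
    obtain ⟨L, hL⟩ := pow_unbounded_of_one_lt 2 hθ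
    exact ⟨L, hL.le⟩
  have hθ0 : 0 < θ := by linarith
  have hlog : 0 < Real.log θ := Real.log_pos hθ
  obtain ⟨R, hR⟩ := exists_nat_ge ((Real.log θ + C * 2 ^ A) / Real.log 2)
  refine ⟨(a + 2) * (A + 1) + 1, ?_⟩
  filter_upwards [h, eventually_ge_atTop (R + L * (B + 2) + B + 2)] with K hK hK1
  have hKR : R ≤ K := by omega
  have hKL : L * (B + 2) ≤ K := by omega
  have hKB : B + 1 ≤ K := by omega
  have hK2 : 2 ≤ K := by omega
  have hK0 : 1 ≤ K := by omega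
  set G : ℕ := K ^ (a + 2) with hG
  have hGpos : 1 ≤ G := Nat.one_le_pow _ _ hK0
  intro I M hM hMm hI m hmI
  -- the least exponent
  obtain ⟨μ, hμI, hμ⟩ : ∃ μ ∈ I, ∀ τ ∈ I, μ ≤ τ := ⟨I.min' ⟨M, hM⟩, I.min'_mem _, fun τ hτ => I.min'_le τ hτ⟩
  rcases Nat.lt_or_ge (μ + G) M with hfar | hnear
  · -- far
    set J := I.erase μ with hJ
    have hMJ : M ∈ J := Finset.mem_erase.2 ⟨by omega, hM⟩
    have hJc : J.card ≤ n := by
      rw [hJ, Finset.card_erase_of_mem hμI]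
      omega
    have h1 := hK J M hMJ (fun τ hτ => hMm τ (Finset.mem_of_mem_erase hτ)) hJc m (fun τ hτ => hmI τ (Finset.mem_of_mem_erase hτ))
    have hsum : ∑ τ ∈ I, (m τ : ℝ) * θ ^ τ = (m μ : ℝ) * θ ^ μ + ∑ τ ∈ J, (m τ : ℝ) * θ ^ τ := (Finset.add_sum_erase I _ hμI).symm
    have hmu : |(m μ : ℝ) * θ ^ μ| ≤ (1 / 2 : ℝ) ^ (K ^ a + 1) * θ ^ M := by
      rw [abs_mul, abs_of_pos (pow_pos hθ0 μ)]
      have h2 : |(m μ : ℝ)| ≤ 2 ^ (B * K) := by
        have := (hmI μ hμI).2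
        exact_mod_cast this
      have h3 : (2 : ℝ) ^ (B * K + K ^ a + 1) ≤ θ ^ G := by
        have h4 : L * (B * K + K ^ a + 1) ≤ G := by
          have e1 : B * K + K ^ a + 1 ≤ (B + 2) * K ^ (a + 1) := by
            have f1 : K ≤ K ^ (a + 1) := Nat.le_self_pow (by omega) K
            have f2 : K ^ a ≤ K ^ (a + 1) := Nat.pow_le_pow_right hK0 (by omega)
            have f3 : 1 ≤ K ^ (a + 1) := Nat.one_le_pow _ _ hK0
            nlinarith
          calc L * (B * K + K ^ a + 1) ≤ L * ((B + 2) * K ^ (a + 1)) := Nat.mul_le_mul_left _ e1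
            _ = (L * (B + 2)) * K ^ (a + 1) := by ring
            _ ≤ K * K ^ (a + 1) := Nat.mul_le_mul_right _ hKL
            _ = G := by rw [hG]; ring
        calc (2 : ℝ) ^ (B * K + K ^ a + 1) ≤ (θ ^ L) ^ (B * K + K ^ a + 1) := pow_le_pow_left₀ (by norm_num) hL _
          _ = θ ^ (L * (B * K + K ^ a + 1)) := by rw [pow_mul]
          _ ≤ θ ^ G := pow_le_pow_right₀ hθ.le h4
      have h5 : θ ^ G * θ ^ μ ≤ θ ^ M := by
        rw [← pow_add]
        exact pow_le_pow_right₀ hθ.le (by omega)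
      have h6 : (2 : ℝ) ^ (B * K) * θ ^ μ = (1 / 2 : ℝ) ^ (K ^ a + 1) * ((2 : ℝ) ^ (B * K + K ^ a + 1) * θ ^ μ) := by
        have e1 : (2 : ℝ) ^ (B * K + K ^ a + 1) = 2 ^ (K ^ a + 1) * 2 ^ (B * K) := by rw [← pow_add]; congr 1; ring
        rw [e1, ← mul_assoc, ← mul_assoc, ← mul_pow]
        norm_num
      calc |(m μ : ℝ)| * θ ^ μ ≤ 2 ^ (B * K) * θ ^ μ := mul_le_mul_of_nonneg_right h2 (by positivity)
        _ = (1 / 2 : ℝ) ^ (K ^ a + 1) * ((2 : ℝ) ^ (B * K + K ^ a + 1) * θ ^ μ) := h6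
        _ ≤ (1 / 2 : ℝ) ^ (K ^ a + 1) * (θ ^ G * θ ^ μ) :=
            mul_le_mul_of_nonneg_left (mul_le_mul_of_nonneg_right h3 (by positivity)) (by positivity)
        _ ≤ (1 / 2 : ℝ) ^ (K ^ a + 1) * θ ^ M := mul_le_mul_of_nonneg_left h5 (by positivity)
    have h7 : |∑ τ ∈ J, (m τ : ℝ) * θ ^ τ| - |(m μ : ℝ) * θ ^ μ| ≤ |∑ τ ∈ I, (m τ : ℝ) * θ ^ τ| := by
      rw [hsum]
      have := abs_sub_abs_le_abs_sub (∑ τ ∈ J, (m τ : ℝ) * θ ^ τ) (-((m μ : ℝ) * θ ^ μ))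
      rw [abs_neg, sub_neg_eq_add, add_comm (∑ τ ∈ J, (m τ : ℝ) * θ ^ τ)] at this
      exact this
    have h8 : (1 / 2 : ℝ) ^ (K ^ ((a + 2) * (A + 1) + 1)) ≤ (1 / 2) ^ (K ^ a + 1) := by
      refine pow_le_pow_of_le_one (by norm_num) (by norm_num) ?_
      have f1 : a + 1 ≤ (a + 2) * (A + 1) + 1 := by nlinarith [Nat.zero_le A]
      calc K ^ a + 1 ≤ K ^ a * 2 := by have : 1 ≤ K ^ a := Nat.one_le_pow _ _ hK0; omega
        _ ≤ K ^ a * K := Nat.mul_le_mul_left _ hK2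
        _ = K ^ (a + 1) := by rw [pow_succ]
        _ ≤ _ := Nat.pow_le_pow_right hK0 f1
    have h9 : (1 / 2 : ℝ) ^ (K ^ a) = 2 * (1 / 2) ^ (K ^ a + 1) := by rw [pow_succ]; ring
    have h10 : 0 < θ ^ M := by positivity
    calc (1 / 2 : ℝ) ^ (K ^ ((a + 2) * (A + 1) + 1)) * θ ^ M ≤ (1 / 2) ^ (K ^ a + 1) * θ ^ M := mul_le_mul_of_nonneg_right h8 h10.le
      _ = (1 / 2 : ℝ) ^ (K ^ a) * θ ^ M - (1 / 2) ^ (K ^ a + 1) * θ ^ M := by rw [h9]; ring
      _ ≤ |∑ τ ∈ J, (m τ : ℝ) * θ ^ τ| - |(m μ : ℝ) * θ ^ μ| := by linarith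
      _ ≤ _ := h7
  · -- near
    have h1 := near (H := 2 ^ (B * K)) hm hθ0 hM hμ hMm hnear hI (fun τ hτ => ⟨(hmI τ hτ).1, by have := (hmI τ hτ).2; exact_mod_cast this⟩)
    refine le_trans ?_ h1
    have hlogH : Real.log (1 + ((2 ^ (B * K) : ℕ) : ℝ)) ≤ G := by
      have e1 : (1 : ℝ) + ((2 ^ (B * K) : ℕ) : ℝ) ≤ 2 ^ (B * K + 1) := by
        push_cast
        have : (1 : ℝ) ≤ 2 ^ (B * K) := one_le_pow₀ (by norm_num)
        rw [pow_succ]
        linarith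
      have e2 : Real.log (1 + ((2 ^ (B * K) : ℕ) : ℝ)) ≤ (B * K + 1 : ℕ) * Real.log 2 := by
        rw [← Real.log_pow]
        exact Real.log_le_log (by positivity) e1
      have e3 : ((B * K + 1 : ℕ) : ℝ) * Real.log 2 ≤ (B * K + 1 : ℕ) := by
        have f1 : Real.log 2 ≤ 1 := by
          have := Real.log_two_lt_d9
          linarith
        have f2 : (0 : ℝ) ≤ ((B * K + 1 : ℕ) : ℝ) := by positivity
        nlinarith
      have e4 : B * K + 1 ≤ G := by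
        calc B * K + 1 ≤ (B + 1) * K := by nlinarith
          _ ≤ K * K := Nat.mul_le_mul_right _ hKB
          _ = K ^ 2 := by ring
          _ ≤ G := Nat.pow_le_pow_right hK0 (by omega)
      have e5 : ((B * K + 1 : ℕ) : ℝ) ≤ G := by exact_mod_cast e4
      linarith
    have hlogH0 : 0 ≤ Real.log (1 + ((2 ^ (B * K) : ℕ) : ℝ)) := Real.log_nonneg (by
      have : (0 : ℝ) ≤ ((2 ^ (B * K) : ℕ) : ℝ) := by positivity
      linarith)
    have hGr : (1 : ℝ) ≤ G := by exact_mod_cast hGpos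
    have hKr : (1 : ℝ) ≤ K := by exact_mod_cast hK0
    set W : ℝ := (K : ℝ) ^ ((a + 2) * (A + 1)) with hW
    have hW0 : 0 < W := by positivity
    have hA1 : ((G : ℝ) + Real.log (1 + ((2 ^ (B * K) : ℕ) : ℝ))) ^ A ≤ 2 ^ A * W := by
      have e1 : ((G : ℝ) + Real.log (1 + ((2 ^ (B * K) : ℕ) : ℝ))) ^ A ≤ (2 * (G : ℝ)) ^ A :=
        pow_le_pow_left₀ (by positivity) (by linarith) A
      refine e1.trans ?_
      rw [mul_pow]
      refine mul_le_mul_of_nonneg_left ?_ (by positivity)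
      have e2 : (G : ℝ) ^ A = (K : ℝ) ^ ((a + 2) * A) := by
        rw [hG]
        push_cast
        rw [← pow_mul]
      rw [e2, hW]
      exact pow_le_pow_right₀ hKr (Nat.mul_le_mul_left _ (by omega))
    have hG1 : (G : ℝ) ≤ W := by
      have e2 : (G : ℝ) = (K : ℝ) ^ (a + 2) := by rw [hG]; push_cast; rfl
      rw [e2, hW]
      exact pow_le_pow_right₀ hKr (by nlinarith [Nat.zero_le A])
    have hfin : G * Real.log θ + C * ((G : ℝ) + Real.log (1 + ((2 ^ (B * K) : ℕ) : ℝ))) ^ A ≤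
        (K ^ ((a + 2) * (A + 1) + 1) : ℕ) * Real.log 2 := by
      have e1 : G * Real.log θ ≤ W * Real.log θ := mul_le_mul_of_nonneg_right hG1 hlog.le
      have e2 : C * ((G : ℝ) + Real.log (1 + ((2 ^ (B * K) : ℕ) : ℝ))) ^ A ≤ C * (2 ^ A * W) := mul_le_mul_of_nonneg_left hA1 hC.le
      have hl2 : 0 < Real.log 2 := Real.log_pos (by norm_num)
      have e3 : (Real.log θ + C * 2 ^ A) ≤ K * Real.log 2 := by
        have : (Real.log θ + C * 2 ^ A) / Real.log 2 ≤ K := hR.trans (by exact_mod_cast hKR)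
        rwa [div_le_iff₀ hl2] at this
      have e4 : ((K ^ ((a + 2) * (A + 1) + 1) : ℕ) : ℝ) = W * K := by
        rw [hW]
        push_cast
        rw [pow_succ]
      rw [e4]
      calc G * Real.log θ + C * ((G : ℝ) + Real.log (1 + ((2 ^ (B * K) : ℕ) : ℝ))) ^ A ≤ W * (Real.log θ + C * 2 ^ A) := by
            have : W * (Real.log θ + C * 2 ^ A) = W * Real.log θ + C * (2 ^ A * W) := by ring
            rw [this]
            exact add_le_add e1 e2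
        _ ≤ W * (K * Real.log 2) := mul_le_mul_of_nonneg_left e3 hW0.le
        _ = W * K * Real.log 2 := by ring
    have h2 : (1 / 2 : ℝ) ^ (K ^ ((a + 2) * (A + 1) + 1)) = Real.exp (-((K ^ ((a + 2) * (A + 1) + 1) : ℕ) * Real.log 2)) := by
      rw [Real.exp_neg, mul_comm (((K ^ ((a + 2) * (A + 1) + 1) : ℕ) : ℝ)) (Real.log 2), Real.exp_mul, Real.exp_log (by norm_num : (0 : ℝ) < 2),
        Real.rpow_natCast, one_div, inv_pow]
    have h3 : θ ^ M ≤ θ ^ μ * Real.exp (G * Real.log θ) := by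
      rw [mul_comm (G : ℝ), Real.exp_mul, Real.exp_log hθ0, Real.rpow_natCast, ← pow_add]
      exact pow_le_pow_right₀ hθ.le (by omega)
    calc (1 / 2 : ℝ) ^ (K ^ ((a + 2) * (A + 1) + 1)) * θ ^ M ≤
          Real.exp (-((K ^ ((a + 2) * (A + 1) + 1) : ℕ) * Real.log 2)) * (θ ^ μ * Real.exp (G * Real.log θ)) := by
          rw [h2]
          exact mul_le_mul_of_nonneg_left h3 (Real.exp_pos _).le
      _ = Real.exp (-((K ^ ((a + 2) * (A + 1) + 1) : ℕ) * Real.log 2) + G * Real.log θ) * θ ^ μ := by rw [Real.exp_add]; ring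
      _ ≤ Real.exp (-(C * ((G : ℝ) + Real.log (1 + ((2 ^ (B * K) : ℕ) : ℝ))) ^ A)) * θ ^ μ := by
          refine mul_le_mul_of_nonneg_right (Real.exp_le_exp.2 ?_) (by positivity)
          linarith

/-- all numbers of terms -/
theorem allLB {θ : ℝ} (hθ : 1 < θ) (hm : SMeas θ) (B n : ℕ) : ∃ a : ℕ, ∀ᶠ K : ℕ in atTop, LB θ B (n + 1) a K := by
  induction n with
  | zero =>
    refine ⟨0, Filter.Eventually.of_forall fun K => ?_⟩
    intro I M hM hMm hI m hmI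
    have h1 : I = {M} := by
      rw [Finset.eq_singleton_iff_unique_mem]
      exact ⟨hM, fun τ hτ => Finset.card_le_one.1 hI τ hτ M hM⟩
    have hθ0 : 0 < θ := by linarith
    rw [h1, Finset.sum_singleton, abs_mul, abs_of_pos (pow_pos hθ0 M)]
    refine mul_le_mul_of_nonneg_right ?_ (by positivity)
    have h2 : (1 : ℝ) ≤ |(m M : ℝ)| := by
      have := Int.one_le_abs (hmI M hM).1
      exact_mod_cast this
    refine le_trans ?_ h2
    exact pow_le_one₀ (by norm_num) (by norm_num)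
  | succ n ih =>
    obtain ⟨a, ha⟩ := ih
    exact step hθ hm B (by omega) ha

theorem ev_NR {θ : ℝ} (hθ : 1 < θ) (hm : SMeas θ) (d : ℕ) : ∃ a : ℕ, 2 ≤ a ∧ ∀ (X : ℕ) (c : ℕ → ℝ), ∀ᶠ K : ℕ in atTop, Pm.NR ⟨d, X, a, θ, c⟩ K := by
  classical
  obtain ⟨a, ha⟩ := allLB hθ hm (31 * (d + 4)) (2 * d + 1)
  refine ⟨a + 2, by omega, fun X c => ?_⟩
  filter_upwards [ha, eventually_ge_atTop 1] with K hK hK1
  intro I hI m hmI hex v hv0 hv
  have hθ0 : 0 < θ := by linarith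
  set J := I.filter fun τ => m τ ≠ 0 with hJ
  have hJne : J.Nonempty := by
    obtain ⟨τ, hτ, h⟩ := hex
    exact ⟨τ, Finset.mem_filter.2 ⟨hτ, h⟩⟩
  have hM := J.max'_mem hJne
  have hMI : J.max' hJne ∈ I := (Finset.mem_filter.1 hM).1
  have hJc : J.card ≤ 2 * d + 1 + 1 := (Finset.card_filter_le _ _).trans (hI.trans (by show 2 * (d + 1) ≤ _; omega))
  have h := hK J (J.max' hJne) hM (fun τ hτ => J.le_max' τ hτ) hJc m (fun τ hτ => by
    have h1 := Finset.mem_filter.1 hτ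
    refine ⟨h1.2, (hmI τ h1.1).trans (le_of_eq ?_)⟩
    show (2 : ℤ) ^ (31 * ((d + 4) * K)) = _
    congr 1
    ring)
  have hs : ∑ τ ∈ I, (m τ : ℝ) * θ ^ τ = ∑ τ ∈ J, (m τ : ℝ) * θ ^ τ := by
    rw [hJ, Finset.sum_filter]
    refine Finset.sum_congr rfl fun τ _ => ?_
    split_ifs with h1
    · rfl
    · rw [not_not] at h1
      rw [h1]
      simp
  show (1 / 2 : ℝ) ^ (K ^ (a + 2)) * v ≤ |∑ τ ∈ I, (m τ : ℝ) * θ ^ τ|
  rw [hs]
  refine le_trans ?_ h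
  have h2 : v ≤ θ ^ J.max' hJne := hv _ hMI
  have h3 : (1 / 2 : ℝ) ^ (K ^ (a + 2)) ≤ (1 / 2) ^ (K ^ a) :=
    pow_le_pow_of_le_one (by norm_num) (by norm_num) (Nat.pow_le_pow_right hK1 (by omega))
  exact mul_le_mul h3 h2 hv0 (by positivity)

end Pool.Agent.Helper23.LD8
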